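import Pool.Agent.Q49.PW.Alp
import Pool.Agent.Q49.PW.Trp

set_option autoImplicit false

/-!
# The theorem of Tsen and Lang for the digit degree

Let `F` be a finite field of characteristic `p`, `K` an algebraic extension of the field `F(t)`
(for example a global function field of characteristic `p`), and `f_j` weighted homogeneous
polynomials over `K`, of degrees `e_j > 0` in variables `x_i` of weights `w_i > 0`. Let `v_i` be
further weights, and suppose that every monomial `∏ x_i ^ a_i` of `f_j` has digit degree
`∑ v_i σ(a_i) ≤ s_j`, where `σ(a)` is the sum of the digits of `a` in base `p`. If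
`∑ e_j s_j < ∑ w_i v_i` then the system `f_j = 0` has a nontrivial zero over `K`.

For `v = w` and `s = e` this is the weighted theorem of Tsen and Lang. For forms of degree `d`,
all of whose monomials are products of at most `s` factors `x_i ^ (p ^ k)`, the condition is
`d s < n`, in place of `d ^ 2 < n`. For example, all hypersurfaces
`∑ a_ij x_i ^ q x_j = 0`, with `q` a power of `p`, in `n > 2 (q + 1)` variables have `K`-rational
points; the theorem of Lang requires `n > (q + 1) ^ 2`. The smooth ones are forms of the
hypersurface of Fermat of degree `q + 1`.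

The proof starts from the theorem of Moreno and Moreno for finite fields.
-/

namespace Pool.Agent.Results.MP_d4938b_nt.DigitDegree

open MvPolynomial

/-- The sum of the digits of `a` in base `p`. -/
def digitSum (p a : ℕ) : ℕ := (Nat.digits p a).sum

/-- Every monomial `∏ x_i ^ a_i` of `f` satisfies `∑ v_i σ(a_i) ≤ s`. -/
def DigitDegreeLE {ι K : Type} [Fintype ι] [Field K] (p : ℕ) (v : ι → ℕ) (s : ℕ)
    (f : MvPolynomial ι K) : Prop :=
  ∀ a ∈ f.support, ∑ i, v i * digitSum p (a i) ≤ s

theorem result (p : ℕ) [Fact p.Prime] (F : Type) [Field F] [Finite F] [CharP F p] (K : Type)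
    [Field K] [Algebra (RatFunc F) K] [Algebra.IsAlgebraic (RatFunc F) K] (ι κ : Type)
    [Fintype ι] [Fintype κ] (w v : ι → ℕ) (e s : κ → ℕ) (f : κ → MvPolynomial ι K)
    (hw : ∀ i, 0 < w i) (he : ∀ j, 0 < e j) (hf : ∀ j, IsWeightedHomogeneous w (f j) (e j))
    (hs : ∀ j, DigitDegreeLE p v (s j) (f j)) (hlt : ∑ j, e j * s j < ∑ i, w i * v i) :
    ∃ x : ι → K, x ≠ 0 ∧ ∀ j, eval x (f j) = 0 := by
  haveI : CharP (RatFunc F) p :=
    charP_of_injective_algebraMap (algebraMap F (RatFunc F)).injective p
  haveI : CharP K p :=
    charP_of_injective_algebraMap (algebraMap (RatFunc F) K).injective p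
  have h1 := Pool.Agent.Q49.PW.algp (RatFunc F) K
    (Pool.Agent.Q49.PW.trp F (Pool.Agent.Q49.PW.cwp p F))
  refine h1 ι κ w v e s f hw he hf hs ?_
  simpa using hlt

end Pool.Agent.Results.MP_d4938b_nt.DigitDegree
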