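import Pool.Agent.Q138.PS.ZB
import Pool.Agent.Q117.LS.C
import Pool.Agent.Q117.LS.E

/-!
# Fibrations in products of conics: all shifts in boxes of bounded size with many primes on each side

Let `f_1, …, f_s` be integral polynomials of positive degrees `d_j`, `a_i, c_i` nonzero integers and `E_i` sets of indices. For
`k` in `ℤ^s` consider the variety

  `V_k : y_i² - a_i z_i² = c_i ∏_{j ∈ E_i} (f_j(t) + k_j) ≠ 0`, `i = 1, …, r`.

Its smooth proper models are rationally connected (fibred over the `t`-line in products of conics), with a nontrivial Brauer group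
in general. It is known (starting file `MP_83e36b_nt.SeveralShifts`) that weak approximation holds for 100% of the `k`. Here: there
are boxes `[n_1, n_1 + D] × … × [n_s, n_s + D]` of bounded size, each side containing at least `M` primes (`D` depends on `M` only),
such that ALL integral vectors `k` with `(|k_1|, …, |k_s|)` in the box are good: the given points of `V_k` at which the sums of the
invariants of the classes `(a_i, f_j(t) + k_j)` vanish are approximated by rational points, and if the `a_i` are independent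
modulo squares or every `E_i` has one element then ALL given points are, although the Brauer group is not trivial in general.
There are at least `X^(d_1 + … + d_s) / (log X)^A` such vectors `n` with `X^d_j / (log X)^A ≤ n_j ≤ X^d_j`, and for given degrees
there is ONE sequence of boxes, with more and more primes on each side, which serves all `f_j`, `a_i`, `c_i`, `E_i`, all sets of
primes and all levels of precision.

Method: the Maynard-Tao theorem with at least `X / (log X)^B` values, for left ends in a residue class (`Q117.LS.A`), so that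
exceptional sets with at most `∏ X^d_j / (log X)^U` elements can be avoided; the residue class is chosen such that for every
offset and all signs of the `k_j` there are auxiliary primes `q`, inert in `ℚ(√a_i)` and split in the other `ℚ(√a_i')`, which
divide two of the values `f_j(t) + k_j` exactly once for one `t` (`Q117.LS.B`, `Q117.LS.C`).

The definitions up to `OnlyObstruction` and the lemmas up to `countable_pol` are those of `MP_83e36b_nt.ShiftsNearSequences`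
(helper138).
-/

set_option autoImplicit false

namespace Pool.Agent.Results.MP_d4938b_nt.StringsOfPrimes

open Finset Polynomial Filter Topology

instance (p : Nat.Primes) : Fact (p : ℕ).Prime := ⟨p.2⟩

/-- the point `(t, y, z)` with coordinates in the field `F` lies on
`V_k : y_i² - a_i z_i² = c_i ∏_{j ∈ E_i} (f_j(t) + k_j)`, with all the `f_j(t) + k_j ≠ 0` -/
def OnV {r s : ℕ} (f : Fin s → ℤ[X]) (a c : Fin r → ℤ) (E : Fin r → Finset (Fin s)) (k : Fin s → ℤ) {F : Type} [Field F]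
    (t : F) (y z : Fin r → F) : Prop :=
  (∀ j, aeval t (f j) + (k j : F) ≠ 0) ∧ ∀ i, y i ^ 2 - (a i : F) * z i ^ 2 = (c i : F) * ∏ j ∈ E i, (aeval t (f j) + (k j : F))

/-- given points: for `p` in `T` the point `(t, y, z)` lies on `V_k`, its coordinates have absolute value at most `p ^ N` and
`|f_j(t) + k_j| ≥ p ^ (-N)`; and `(tr, yr, zr)` is a real point of `V_k` with `|tr| ≤ B X`, `|f_j(tr) + k_j| ≥ X ^ deg f_j / B`
and `yr_i², zr_i² ≤ B X ^ (∑_{j ∈ E_i} deg f_j)` -/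
def Given {r s : ℕ} (f : Fin s → ℤ[X]) (a c : Fin r → ℤ) (E : Fin r → Finset (Fin s)) (T : Finset Nat.Primes) (N B X : ℕ)
    (k : Fin s → ℤ) (t : (p : Nat.Primes) → ℚ_[(p : ℕ)]) (y z : (p : Nat.Primes) → Fin r → ℚ_[(p : ℕ)]) (tr : ℝ)
    (yr zr : Fin r → ℝ) : Prop :=
  (∀ p ∈ T, OnV f a c E k (t p) (y p) (z p) ∧ ‖t p‖ ≤ ((p : ℕ) : ℝ) ^ N ∧
    (∀ i, ‖y p i‖ ≤ ((p : ℕ) : ℝ) ^ N ∧ ‖z p i‖ ≤ ((p : ℕ) : ℝ) ^ N) ∧
    ∀ j, (((p : ℕ) : ℝ) ^ N)⁻¹ ≤ ‖aeval (t p) (f j) + (k j : ℚ_[(p : ℕ)])‖) ∧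
  OnV f a c E k tr yr zr ∧ |tr| ≤ B * X ∧ (∀ j, (X : ℝ) ^ (f j).natDegree ≤ B * |aeval tr (f j) + (k j : ℝ)|) ∧
  ∀ i, yr i ^ 2 ≤ B * (X : ℝ) ^ (∑ j ∈ E i, (f j).natDegree) ∧ zr i ^ 2 ≤ B * (X : ℝ) ^ (∑ j ∈ E i, (f j).natDegree)

/-- there is a rational point `(q, Y, Z)` of `V_k` whose coordinates are at distance at most `p ^ (-N)` from those of the given
`p`-adic point, for all `p` in `T`, and with `|q - tr| ≤ X / B` and
`(Y_i - yr_i)², (Z_i - zr_i)² ≤ X ^ (∑_{j ∈ E_i} deg f_j) / B` -/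
def Approximated {r s : ℕ} (f : Fin s → ℤ[X]) (a c : Fin r → ℤ) (E : Fin r → Finset (Fin s)) (T : Finset Nat.Primes)
    (N B X : ℕ) (k : Fin s → ℤ) (t : (p : Nat.Primes) → ℚ_[(p : ℕ)]) (y z : (p : Nat.Primes) → Fin r → ℚ_[(p : ℕ)]) (tr : ℝ)
    (yr zr : Fin r → ℝ) : Prop :=
  ∃ (q : ℚ) (Y Z : Fin r → ℚ), OnV f a c E k q Y Z ∧
    (∀ p ∈ T, ‖(q : ℚ_[(p : ℕ)]) - t p‖ ≤ (((p : ℕ) : ℝ) ^ N)⁻¹ ∧ ∀ i, ‖(Y i : ℚ_[(p : ℕ)]) - y p i‖ ≤ (((p : ℕ) : ℝ) ^ N)⁻¹ ∧
      ‖(Z i : ℚ_[(p : ℕ)]) - z p i‖ ≤ (((p : ℕ) : ℝ) ^ N)⁻¹) ∧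
    B * |(q : ℝ) - tr| ≤ X ∧
    ∀ i, B * ((Y i : ℝ) - yr i) ^ 2 ≤ (X : ℝ) ^ (∑ j ∈ E i, (f j).natDegree) ∧
      B * ((Z i : ℝ) - zr i) ^ 2 ≤ (X : ℝ) ^ (∑ j ∈ E i, (f j).natDegree)

/-- `x` is not of the form `y² - a z²`: the quaternion algebra `(a, x)` over the field `F` does not split (`x ≠ 0`) -/
def Nonsplit {F : Type} [Field F] (a x : F) : Prop := ¬ ∃ y z : F, y ^ 2 - a * z ^ 2 = x

open Classical in
/-- for all `i` and all `j` in `E_i` the sum over the places of `T` and the real place of the invariants of `(a_i, f_j(t) + k_j)` is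
`0` at the given points: an even number of these algebras does not split -/
def Orthogonal {r s : ℕ} (f : Fin s → ℤ[X]) (a : Fin r → ℤ) (E : Fin r → Finset (Fin s)) (T : Finset Nat.Primes)
    (k : Fin s → ℤ) (t : (p : Nat.Primes) → ℚ_[(p : ℕ)]) (tr : ℝ) : Prop :=
  ∀ i, ∀ j ∈ E i, Even (#(T.filter (fun p : Nat.Primes => Nonsplit (a i : ℚ_[(p : ℕ)]) (aeval (t p) (f j) + (k j : ℚ_[(p : ℕ)])))) +
    (if Nonsplit (a i : ℝ) (aeval tr (f j) + (k j : ℝ)) then 1 else 0))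

/-- all given points are approximated -/
def Weak {r s : ℕ} (f : Fin s → ℤ[X]) (a c : Fin r → ℤ) (E : Fin r → Finset (Fin s)) (T : Finset Nat.Primes) (N B X : ℕ)
    (k : Fin s → ℤ) : Prop :=
  ∀ (t : (p : Nat.Primes) → ℚ_[(p : ℕ)]) (y z : (p : Nat.Primes) → Fin r → ℚ_[(p : ℕ)]) (tr : ℝ) (yr zr : Fin r → ℝ),
    Given f a c E T N B X k t y z tr yr zr → Approximated f a c E T N B X k t y z tr yr zr

/-- all given points at which the sums of the invariants vanish are approximated -/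
def OnlyObstruction {r s : ℕ} (f : Fin s → ℤ[X]) (a c : Fin r → ℤ) (E : Fin r → Finset (Fin s)) (T : Finset Nat.Primes) (N B X : ℕ)
    (k : Fin s → ℤ) : Prop :=
  ∀ (t : (p : Nat.Primes) → ℚ_[(p : ℕ)]) (y z : (p : Nat.Primes) → Fin r → ℚ_[(p : ℕ)]) (tr : ℝ) (yr zr : Fin r → ℝ),
    Given f a c E T N B X k t y z tr yr zr → Orthogonal f a E T k t tr → Approximated f a c E T N B X k t y z tr yr zr

open Pool.Agent.W313.BMX (Splits)
open Pool.Agent.TH204.HP Pool.Agent.Y714.RC Pool.Agent.Q138.PS.SV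

lemma real_iff (a : ℤ) (ha : a ≠ 0) (x : ℝ) (hx : x ≠ 0) : Nonsplit (a : ℝ) x ↔ a < 0 ∧ x < 0 := by
  unfold Nonsplit
  rw [conic_iff (a : ℝ) x (by exact_mod_cast ha) hx]
  constructor
  · intro h
    by_contra hcon
    apply h
    rw [← conic_iff (a : ℝ) x (by exact_mod_cast ha) hx]
    rw [not_and_or, not_lt, not_lt] at hcon
    rcases hcon with h1 | h1
    · have ha0 : (0 : ℝ) < a := by
        have : 0 < a := lt_of_le_of_ne h1 (Ne.symm ha)
        exact_mod_cast this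
      rcases le_total 0 x with h2 | h2
      · exact ⟨Real.sqrt x, 0, by rw [Real.sq_sqrt h2]; ring⟩
      · refine ⟨0, Real.sqrt (-x / a), ?_⟩
        rw [Real.sq_sqrt (div_nonneg (by linarith) ha0.le)]
        field_simp
        ring
    · exact ⟨Real.sqrt x, 0, by rw [Real.sq_sqrt h1]; ring⟩
  · rintro ⟨h1, h2⟩ h3
    obtain ⟨y, z, h4⟩ := (conic_iff (a : ℝ) x (by exact_mod_cast ha) hx).2 h3
    have h5 : (a : ℝ) < 0 := by exact_mod_cast h1
    nlinarith [sq_nonneg y, mul_nonneg (neg_nonneg.2 h5.le) (sq_nonneg z)]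

open Classical in
/-- the number of nonsplit places -/
lemma count_eq {s : ℕ} (f : Fin s → ℤ[X]) (a : ℤ) (ha : a ≠ 0) (T : Finset Nat.Primes) (k : Fin s → ℤ) (j : Fin s)
    (t : (p : Nat.Primes) → ℚ_[(p : ℕ)]) (tr : ℝ) (ht : ∀ p ∈ T, PP f k j (t p) ≠ 0) (hr : PP f k j tr ≠ 0) :
    #(T.filter (fun p : Nat.Primes => Nonsplit (a : ℚ_[(p : ℕ)]) (aeval (t p) (f j) + (k j : ℚ_[(p : ℕ)])))) +
      (if Nonsplit (a : ℝ) (aeval tr (f j) + (k j : ℝ)) then 1 else 0) =
    #(T.filter (fun p : Nat.Primes => ¬ Splits (a : ℚ_[(p : ℕ)]) (PP f k j (t p)))) + (if a < 0 ∧ PP f k j tr < 0 then 1 else 0) := by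
  congr 1
  · congr 1
    apply filter_congr
    intro p hp
    unfold Nonsplit
    rw [not_iff_not]
    exact conic_iff (a : ℚ_[(p : ℕ)]) (PP f k j (t p)) (by exact_mod_cast ha) (ht p hp)
  · have h1 : Nonsplit (a : ℝ) (aeval tr (f j) + (k j : ℝ)) ↔ a < 0 ∧ PP f k j tr < 0 := real_iff a ha _ hr
    by_cases h2 : Nonsplit (a : ℝ) (aeval tr (f j) + (k j : ℝ))
    · rw [if_pos h2, if_pos (h1.1 h2)]
    · rw [if_neg h2, if_neg (fun h => h2 (h1.2 h))]

/-- the condition is automatic if each conic contains one polynomial -/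
lemma auto {r s : ℕ} (f : Fin s → ℤ[X]) (a c : Fin r → ℤ) (ha : ∀ i, a i ≠ 0) (hc : ∀ i, c i ≠ 0) (E : Fin r → Finset (Fin s))
    (hE : ∀ i, #(E i) = 1) (T : Finset Nat.Primes) (h2T : ∀ p : Nat.Primes, (p : ℕ) = 2 → p ∈ T)
    (hT1 : ∀ p : Nat.Primes, (∃ i, ((p : ℕ) : ℤ) ∣ a i ∨ ((p : ℕ) : ℤ) ∣ c i) → p ∈ T) (N B X : ℕ) (k : Fin s → ℤ)
    (t : (p : Nat.Primes) → ℚ_[(p : ℕ)]) (y z : (p : Nat.Primes) → Fin r → ℚ_[(p : ℕ)]) (tr : ℝ) (yr zr : Fin r → ℝ)
    (h : Given f a c E T N B X k t y z tr yr zr) : Orthogonal f a E T k t tr := by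
  classical
  intro i j hj
  obtain ⟨hloc, hre, -, -, -⟩ := h
  rw [count_eq f (a i) (ha i) T k j t tr (fun p hp => (hloc p hp).1.1 j) (hre.1 j)]
  have hEi : E i = {j} := by
    obtain ⟨x, hx⟩ := card_eq_one.1 (hE i)
    rw [hx, mem_singleton] at hj
    rw [hx, hj]
  have hTne : T.Nonempty := ⟨⟨2, Nat.prime_two⟩, h2T _ rfl⟩
  obtain ⟨V, hV0, hV⟩ := int_vals f T hTne N k t (fun p hp => (hloc p hp).2.1) (fun p hp => (hloc p hp).2.2.2)
  have h1 := row_even (a i) (c i) (ha i) (hc i) (E i) V (fun j _ => hV0 j) T h2T (fun p hp => hT1 p ⟨i, Or.inl hp⟩)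
    (fun p hp => hT1 p ⟨i, Or.inr hp⟩) (by
      intro p hp
      have h2 := hV p hp
      choose σ hσ hσ2 using h2
      have e1 : ((c i * ∏ j ∈ E i, V j : ℤ) : ℚ_[(p : ℕ)]) = (c i * ∏ j ∈ E i, PP f k j (t p)) * (∏ j ∈ E i, σ j) ^ 2 := by
        push_cast
        rw [← prod_pow, mul_assoc, ← prod_mul_distrib]
        congr 1
        apply prod_congr rfl
        intro j _
        exact hσ2 j
      rw [e1]
      refine (splits_mul_sq' (prod_ne_zero_iff.2 fun j _ => hσ j)).2 ?_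
      have h2 := (hloc p hp).1
      exact (conic_iff _ _ (by exact_mod_cast ha i) (mul_ne_zero (by exact_mod_cast hc i) (prod_ne_zero_iff.2 fun j _ => h2.1 j))).1
        ⟨y p i, z p i, h2.2 i⟩)
    (fun j => PP f k j tr) (fun j _ => hre.1 j) (fun hai => by
      have h4 : (c i : ℝ) * ∏ j ∈ E i, PP f k j tr ≠ 0 :=
        mul_ne_zero (by exact_mod_cast hc i) (prod_ne_zero_iff.2 fun j _ => hre.1 j)
      have h5 : yr i ^ 2 - (a i : ℝ) * zr i ^ 2 = (c i : ℝ) * ∏ j ∈ E i, PP f k j tr := hre.2 i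
      have h6 : 0 ≤ (c i : ℝ) * ∏ j ∈ E i, PP f k j tr := by
        rw [← h5]
        have h7 : (a i : ℝ) < 0 := by exact_mod_cast hai
        nlinarith [sq_nonneg (yr i), sq_nonneg (zr i), mul_nonneg (neg_nonneg.2 h7.le) (sq_nonneg (zr i))]
      exact lt_of_le_of_ne h6 h4.symm)
  rw [hEi, sum_singleton] at h1
  have h2 : #(T.filter (fun p : Nat.Primes => ¬ Splits (a i : ℚ_[(p : ℕ)]) (V j : ℚ_[(p : ℕ)]))) =
      #(T.filter (fun p : Nat.Primes => ¬ Splits (a i : ℚ_[(p : ℕ)]) (PP f k j (t p)))) := by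
    congr 1
    apply filter_congr
    intro p hp
    obtain ⟨σ, hσ, hσ2⟩ := hV p hp j
    rw [hσ2, splits_mul_sq' hσ]
  rw [h2] at h1
  exact h1

theorem countable_pol : Countable ℤ[X] :=
  Cardinal.mk_le_aleph0_iff.1 (by
    refine (Polynomial.cardinalMk_le_max (R := ℤ)).trans ?_
    simp)

/-- the `a_i` are independent modulo squares and all `E_i` are nonempty, or all `E_i` have one element -/
def Free {r s : ℕ} (a : Fin r → ℤ) (E : Fin r → Finset (Fin s)) : Prop :=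
  ((∀ S : Finset (Fin r), S.Nonempty → ¬ IsSquare (∏ i ∈ S, a i)) ∧ ∀ i, (E i).Nonempty) ∨ ∀ i, #(E i) = 1

/-- all given points of `V_k` with vanishing sums of invariants are approximated by rational points, and all given points if
`Free a E` holds -/
def Good {r s : ℕ} (f : Fin s → ℤ[X]) (a c : Fin r → ℤ) (E : Fin r → Finset (Fin s)) (T : Finset Nat.Primes) (N B X : ℕ)
    (k : Fin s → ℤ) : Prop :=
  OnlyObstruction f a c E T N B X k ∧ (Free a E → Weak f a c E T N B X k)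

/-- the conditions on the data: the `f_j` are not constant, the `a_i` and `c_i` are not `0`, and `T` contains the primes `p = 2`,
`p ≤ ∑ deg f_j` and those which divide a leading coefficient or some `a_i c_i` -/
def Admissible {r s : ℕ} (f : Fin s → ℤ[X]) (a c : Fin r → ℤ) (T : Finset Nat.Primes) : Prop :=
  (∀ j, 1 ≤ (f j).natDegree) ∧ (∀ i, a i ≠ 0) ∧ (∀ i, c i ≠ 0) ∧
    ∀ p : Nat.Primes, ((p : ℕ) = 2 ∨ (p : ℕ) ≤ ∑ j, (f j).natDegree ∨ (∃ j, ((p : ℕ) : ℤ) ∣ (f j).leadingCoeff) ∨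
      ∃ i, ((p : ℕ) : ℤ) ∣ a i * c i) → p ∈ T

/-- the vectors `n` with `X ^ deg f_j / (log X) ^ A ≤ n_j ≤ X ^ deg f_j` such that each interval `[n_j, n_j + D]` contains at least
`M` primes and ALL integral vectors `k` with `n_j ≤ |k_j| ≤ n_j + D` for all `j` are good -/
def Ends {r s : ℕ} (f : Fin s → ℤ[X]) (a c : Fin r → ℤ) (E : Fin r → Finset (Fin s)) (T : Finset Nat.Primes) (N B M D A X : ℕ) :
    Set (Fin s → ℕ) :=
  {n | (∀ j, (X : ℝ) ^ (f j).natDegree / Real.log X ^ A ≤ n j ∧ n j ≤ X ^ (f j).natDegree ∧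
      M ≤ #((Icc (n j) (n j + D)).filter Nat.Prime)) ∧
    ∀ k : Fin s → ℤ, (∀ j, (n j : ℤ) ≤ |k j| ∧ |k j| ≤ n j + D) → Good f a c E T N B X k}

open Pool.Agent.Q117.LS (Task Near)

theorem task {r s : ℕ} (f : Fin s → ℤ[X]) (a c : Fin r → ℤ) (E : Fin r → Finset (Fin s)) (T : Finset Nat.Primes)
    (h : Admissible f a c T) (N B : ℕ) (hB : 1 ≤ B) (D K : ℕ) (b : ℕ → ℤ) :
    Task (fun j => (f j).natDegree) D K b (fun X k => Good f a c E T N B X k) := by
  classical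
  obtain ⟨hf, ha, hc, hT⟩ := h
  by_cases hfree : (∀ S : Finset (Fin r), S.Nonempty → ¬ IsSquare (∏ i ∈ S, a i)) ∧ ∀ i, (E i).Nonempty
  · obtain ⟨hind, hE⟩ := hfree
    intro K1
    obtain ⟨Q, μ, hQ, hadm, hP⟩ := Pool.Agent.Q117.LS.weak_box f hf a c hind hc E hE T hT N B hB 2 D K b K1
    refine ⟨Q, μ, hQ, hadm, fun U => ?_⟩
    obtain ⟨X0, h0⟩ := hP U
    refine ⟨X0, fun X hX => ?_⟩
    obtain ⟨Bad, h1, h2⟩ := h0 X hX
    refine ⟨Bad, h1, fun n k g1 g2 g3 g4 => ?_⟩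
    have hW := h2 n k g1 g2 g3 g4
    have hW' : Weak f a c E T N B X k := by
      intro t y z tr yr zr hG
      exact hW t y z tr yr zr hG.1 hG.2.1 hG.2.2.1 hG.2.2.2.1 hG.2.2.2.2
    exact ⟨fun t y z tr yr zr hg _ => hW' t y z tr yr zr hg, fun _ => hW'⟩
  · apply Pool.Agent.Q117.LS.task_of
    intro U
    obtain ⟨X0, h0⟩ := wamp_count f hf a c ha hc E T hT N B hB 2 U
    refine ⟨X0, fun X hX => ?_⟩
    obtain ⟨Bad, h1, h2⟩ := h0 X hX
    refine ⟨Bad, h1, fun k g3 g4 => ?_⟩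
    have h1 := h2 k g3 g4
    have h2 : OnlyObstruction f a c E T N B X k := by
      intro t y z tr yr zr hg ho
      refine h1 t y z tr yr zr hg.1 hg.2.1 hg.2.2.1 hg.2.2.2.1 hg.2.2.2.2 (fun i j hj => ?_)
      have h3 := ho i j hj
      rw [count_eq f (a i) (ha i) T k j t tr (fun p hp => (hg.1 p hp).1.1 j) (hg.2.1.1 j)] at h3
      convert h3
    refine ⟨h2, fun hF t y z tr yr zr hg => h2 t y z tr yr zr hg ?_⟩
    rcases hF with hF | hF
    · exact absurd hF hfree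
    · exact auto f a c ha hc E hF T (fun p hp => hT p (Or.inl hp)) (by
        rintro p ⟨i, h | h⟩
        · exact hT p (Or.inr (Or.inr (Or.inr ⟨i, h.mul_right _⟩)))
        · exact hT p (Or.inr (Or.inr (Or.inr ⟨i, h.mul_left _⟩)))) N B _ k t y z tr yr zr hg

/-- the data for given degrees -/
abbrev Dat (s : ℕ) : Type :=
  Σ r : ℕ, (Fin s → ℤ[X]) × (Fin r → ℤ) × (Fin r → ℤ) × (Fin r → Finset (Fin s)) × Finset Nat.Primes × ℕ × ℕ

/-- **Theorem.** There is `D : ℕ → ℕ` with the following properties.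
(1) For all admissible data, all `N`, `B ≥ 1` and `M` there is `A` such that for all large `X` at least
`∏ X ^ deg f_j / (log X) ^ A` vectors `n` are in `Ends f a c E T N B M (D M) A X`.
(2) For all degrees `d_j ≥ 1` there are `X_M ≥ M` and vectors `n^(M)` with `X_M ^ (d_j - 1 / (M + 1)) ≤ n^(M)_j ≤ X_M ^ d_j` and at
least `M` primes in each interval `[n^(M)_j, n^(M)_j + D M]`, such that for ALL admissible data with `deg f_j = d_j` for all `j`, all `N`
and `B ≥ 1`: for all large `M`, ALL integral vectors `k` with `n^(M)_j ≤ |k_j| ≤ n^(M)_j + D M` for all `j` are good. -/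
theorem result : ∃ D : ℕ → ℕ,
    (∀ (r s : ℕ) (f : Fin s → ℤ[X]) (a c : Fin r → ℤ) (E : Fin r → Finset (Fin s)) (T : Finset Nat.Primes), Admissible f a c T →
      ∀ (N B M : ℕ), 1 ≤ B → ∃ A : ℕ, ∀ᶠ X : ℕ in atTop,
        (∏ j, (X : ℝ) ^ (f j).natDegree) / Real.log X ^ A ≤ ((Ends f a c E T N B M (D M) A X).ncard : ℝ)) ∧
    ∀ (s : ℕ) (d : Fin s → ℕ), (∀ j, 1 ≤ d j) → ∃ (X : ℕ → ℕ) (n : ℕ → Fin s → ℕ),
      (∀ M, M ≤ X M ∧ ∀ j, (X M : ℝ) ^ ((d j : ℝ) - 1 / ((M : ℝ) + 1)) ≤ n M j ∧ n M j ≤ X M ^ d j ∧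
        M ≤ #((Icc (n M j) (n M j + D M)).filter Nat.Prime)) ∧
      ∀ (r : ℕ) (f : Fin s → ℤ[X]) (a c : Fin r → ℤ) (E : Fin r → Finset (Fin s)) (T : Finset Nat.Primes), Admissible f a c T →
        (∀ j, (f j).natDegree = d j) → ∀ (N B : ℕ), 1 ≤ B → ∀ᶠ M : ℕ in atTop, ∀ k : Fin s → ℤ,
          (∀ j, (n M j : ℤ) ≤ |k j| ∧ |k j| ≤ n M j + D M) → Good f a c E T N B (X M) k := by
  classical
  obtain ⟨D, h1, h2⟩ := Pool.Agent.Q117.LS.main
  refine ⟨D, fun r s f a c E T h N B M hB => ?_, fun s d hd => ?_⟩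
  · exact h1 s (fun j => (f j).natDegree) h.1 (fun X k => Good f a c E T N B X k)
      (fun D K b => task f a c E T h N B hB D K b) M
  · have := countable_pol
    obtain ⟨X, n, h3, h4⟩ := h2 s d hd (Dat s) inferInstance
      (fun x X k => Good x.2.1 x.2.2.1 x.2.2.2.1 x.2.2.2.2.1 x.2.2.2.2.2.1 x.2.2.2.2.2.2.1 x.2.2.2.2.2.2.2 X k)
    refine ⟨X, n, h3, fun r f a c E T h hdeg N B hB => ?_⟩
    refine h4 ⟨r, f, a, c, E, T, N, B⟩ fun D K b => ?_
    have h5 := task f a c E T h N B hB D K b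
    have e : (fun j => (f j).natDegree) = d := funext hdeg
    rw [e] at h5
    exact h5

end Pool.Agent.Results.MP_d4938b_nt.StringsOfPrimes
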