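import Pool.Agent.Q117.FW.G

/-!
# Weak approximation for 100% of the everywhere locally soluble Fano hypersurfaces over `F_q(t)`

Let `F` be a finite field, `n ≥ 3` and `2 ≤ d ≤ n`. The hypersurfaces of degree `d` in `ℙⁿ` over `K = F(t)` are given by forms
with coefficients in `F[t]`; we order them by the maximum of the degrees of the coefficients. The starting file
`RandomFanoFunctionField` shows that 100% of those which are everywhere locally soluble have a rational point. Here: for 100% of
them the rational points are dense in the product of the sets of points over the completions at ANY places of bounded degree and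
at infinity, to a precision which tends to infinity; cubic surfaces are included.

Method: the second moment method of the starting library `Pool.Agent.Y716.FF` gives zeros in a box around the centre of a class
of forms; the centre is now prescribed at the places of degree at most `m` (all the other places of degree at most `w`, `w` large
in terms of `m`, are treated as before), and a finite number of centres, which depends on `m` only, is sufficient.
-/

set_option autoImplicit false

namespace Pool.Agent.Results.MP_d4938b_nt.WeakApproximationFqt

open Polynomial IsDedekindDomain WithZero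

/-- The forms of degree `d` in `n + 1` variables over `F[t]` all of whose coefficients have degree less than `A`. -/
def Forms (F : Type*) [Field F] (n d A : ℕ) : Set (MvPolynomial (Fin (n + 1)) F[X]) :=
  {f | f.IsHomogeneous d ∧ ∀ m, (f.coeff m).degree < A}

/-- The embedding of `F[t]` in the completion `F((u))`, `u = 1 / t`, of `F(t)` at infinity: `t` goes to the inverse of `u`. -/
noncomputable def toInfty (F : Type*) [Field F] : F[X] →+* LaurentSeries F :=
  (Polynomial.aeval (HahnSeries.single (-1 : ℤ) (1 : F)) : F[X] →ₐ[F] LaurentSeries F).toRingHom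

/-- The form `f` has a nontrivial zero over the completion of `F(t)` at every place: at every maximal ideal `v` of `F[t]`, and at
infinity. -/
def HasLocalZeros {F : Type*} [Field F] {n : ℕ} (f : MvPolynomial (Fin (n + 1)) F[X]) : Prop :=
  (∀ v : HeightOneSpectrum F[X],
    ∃ x : Fin (n + 1) → v.adicCompletion (RatFunc F), x ≠ 0 ∧ MvPolynomial.aeval x f = 0) ∧
  ∃ x : Fin (n + 1) → LaurentSeries F, x ≠ 0 ∧ MvPolynomial.eval₂ (toInfty F) x f = 0

/-- The place `v` belongs to a prime polynomial of degree at most `m`. -/
def DegLE {F : Type*} [Field F] (m : ℕ) (v : HeightOneSpectrum F[X]) : Prop :=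
  ∃ P : F[X], v.asIdeal = Ideal.span {P} ∧ P.natDegree ≤ m

/-- The point with the coordinates `x_i` in `F[t]` is close to the point with the coordinates `y_i` in the completion at `v`: for
some `c ≠ 0` and some `r` the `c x_i - y_i` have absolute value at most `|y_r| |π| ^ m`, `π` a prime element. -/
def CloseFin {F : Type*} [Field F] {n : ℕ} (v : HeightOneSpectrum F[X]) (m : ℕ) (x : Fin (n + 1) → F[X])
    (y : Fin (n + 1) → v.adicCompletion (RatFunc F)) : Prop :=
  ∃ (c : v.adicCompletion (RatFunc F)) (r : Fin (n + 1)), c ≠ 0 ∧ ∀ i,
    (Valued.v : Valuation (v.adicCompletion (RatFunc F)) ℤᵐ⁰)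
      (c * algebraMap F[X] (v.adicCompletion (RatFunc F)) (x i) - y i) ≤
    exp (-(m : ℤ)) * (Valued.v : Valuation (v.adicCompletion (RatFunc F)) ℤᵐ⁰) (y r)

/-- The same at infinity: for some `c ≠ 0` and some `r` the `c x_i - y_i` are `u ^ m y_r` times power series in `u = 1 / t`. -/
def CloseInf {F : Type*} [Field F] {n : ℕ} (m : ℕ) (x : Fin (n + 1) → F[X]) (y : Fin (n + 1) → LaurentSeries F) : Prop :=
  ∃ (c : LaurentSeries F) (r : Fin (n + 1)), c ≠ 0 ∧ ∀ i, ∃ w : PowerSeries F,
    c * toInfty F (x i) - y i = HahnSeries.single (m : ℤ) 1 * y r * HahnSeries.ofPowerSeries ℤ F w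

/-- Weak approximation of level `m`: all families of nontrivial zeros of `f` over the completions at the places of degree at most
`m` and at infinity are approximated by ONE nontrivial zero of `f` over `F[t]`, to the precision `m`. -/
def WeakApproximation {F : Type*} [Field F] {n : ℕ} (m : ℕ) (f : MvPolynomial (Fin (n + 1)) F[X]) : Prop :=
  ∀ (y : (v : HeightOneSpectrum F[X]) → Fin (n + 1) → v.adicCompletion (RatFunc F)) (z : Fin (n + 1) → LaurentSeries F),
    (∀ v, DegLE m v → y v ≠ 0 ∧ MvPolynomial.aeval (y v) f = 0) →
    z ≠ 0 → MvPolynomial.eval₂ (toInfty F) z f = 0 →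
    ∃ x : Fin (n + 1) → F[X], x ≠ 0 ∧ MvPolynomial.eval x f = 0 ∧ (∀ v, DegLE m v → CloseFin v m x (y v)) ∧
      CloseInf m x z

/-- For every finite field `F`, every `n ≥ 3` and every `d` with `2 ≤ d ≤ n` there is a function `m` which tends to infinity such
that the number of forms of degree `d` in `n + 1` variables with coefficients of degree `< A` which have nontrivial zeros over all
completions of `F(t)` and satisfy weak approximation of level `m(A)`, divided by the number of those which have nontrivial zeros
over all completions of `F(t)`, tends to `1` as `A` grows. -/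
theorem result (F : Type*) [Field F] [Finite F] (n d : ℕ) (hn : 3 ≤ n) (hd : 2 ≤ d) (hdn : d ≤ n) :
    ∃ m : ℕ → ℕ, Filter.Tendsto m Filter.atTop Filter.atTop ∧ Filter.Tendsto (fun A : ℕ =>
      (({f ∈ Forms F n d A | HasLocalZeros f ∧ WeakApproximation (m A) f} : Set _).ncard : ℝ) /
      (({f ∈ Forms F n d A | HasLocalZeros f} : Set _).ncard : ℝ))
      Filter.atTop (nhds 1) := by
  obtain ⟨e, rfl⟩ : ∃ e, d = e + 2 := ⟨d - 2, by omega⟩
  exact Pool.Agent.Q117.FW.main (F := F) (ι := Fin (n + 1)) e
    (by rw [Fintype.card_fin]; omega) (by rw [Fintype.card_fin]; omega)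

end Pool.Agent.Results.MP_d4938b_nt.WeakApproximationFqt
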